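import Mathlib

set_option autoImplicit false
set_option maxHeartbeats 400000

open Filter Topology Set Real

namespace Pool.Agent.Results.MP_d2a7e5_an.NotCM

/-- the digamma function -/
noncomputable def psi (x : ℝ) : ℝ := deriv Gamma x / Gamma x

/-- the logarithmic approximation -/
noncomputable def L (x a : ℝ) : ℝ := 1 / (90 * a ^ 2 + 2) * log (x ^ 2 + x + (3 * a + 1) / 3) +
  45 * a ^ 2 / (90 * a ^ 2 + 2) * log (x ^ 2 + x + (15 * a - 1) / (45 * a))

/-- the parameter -/
noncomputable def a1 : ℝ := (40 + 3 * √205) / 105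

/-- the remainder -/
noncomputable def G (x : ℝ) : ℝ := L x a1 - psi (x + 1)

theorem anG {x : ℝ} (hx : 0 < x) : AnalyticAt ℝ Gamma x := by
  have : AnalyticAt ℂ Complex.Gamma x := by
    refine DifferentiableOn.analyticAt (s := {z : ℂ | 0 < z.re}) (fun z hz => ?_)
      ((isOpen_lt continuous_const Complex.continuous_re).mem_nhds hx)
    refine (Complex.differentiableAt_Gamma z fun m h => ?_).differentiableWithinAt
    have := m.cast_nonneg (α := ℝ)
    rw [h] at hz; simp at hz; linarith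
  exact this.re_ofReal

theorem psi_add {x : ℝ} (hx : 0 < x) : psi (x + 1) = psi x + 1 / x := by
  have d : DifferentiableAt ℝ Gamma x := differentiableAt_Gamma fun m => by
    have := m.cast_nonneg (α := ℝ); linarith
  have e : (fun y => Gamma (y + 1)) =ᶠ[𝓝 x] fun y => y * Gamma y := by
    filter_upwards [lt_mem_nhds hx] with y hy using Gamma_add_one hy.ne'
  have := e.deriv_eq
  rw [deriv_comp_add_const, ((hasDerivAt_id' x).fun_mul d.hasDerivAt).deriv] at this
  have g := (Gamma_pos_of_pos hx).ne'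
  rw [psi, psi, this, Gamma_add_one hx.ne']; field_simp; ring

noncomputable def l (c : ℝ) : ℕ → ℝ → ℝ
  | 0, x => log (x ^ 2 + x + c)
  | 1, x => (2 * x + 1) / (x ^ 2 + x + c)
  | 2, x => (2 * (x ^ 2 + x + c) - (2 * x + 1) ^ 2) / (x ^ 2 + x + c) ^ 2
  | 3, x => 2 * (2 * x + 1) * ((2 * x + 1) ^ 2 - 3 * (x ^ 2 + x + c)) / (x ^ 2 + x + c) ^ 3
  | _, x => -6 * ((2 * x + 1) ^ 4 - 4 * (2 * x + 1) ^ 2 * (x ^ 2 + x + c) + 2 * (x ^ 2 + x + c) ^ 2) /
      (x ^ 2 + x + c) ^ 4

theorem dl {c : ℝ} (hc : 1 / 4 < c) (n : ℕ) (hn : n < 4) (x : ℝ) :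
    HasDerivAt (l c n) (l c (n + 1) x) x := by
  have q0 : x ^ 2 + x + c ≠ 0 := by nlinarith [sq_nonneg (x + 1 / 2)]
  have i := hasDerivAt_id' x
  have q := ((i.fun_pow 2).fun_add i).add_const c
  have p := (i.const_mul 2).add_const 1
  interval_cases n
  · exact (q.log q0).congr_deriv (by simp [l])
  · exact (p.fun_div q q0).congr_deriv (by simp [l]; field_simp)
  · exact (((q.const_mul 2).fun_sub (p.fun_pow 2)).fun_div (q.fun_pow 2) (pow_ne_zero _ q0)).congr_deriv
      (by simp [l]; field_simp; ring)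
  · exact (((p.const_mul 2).fun_mul ((p.fun_pow 2).fun_sub (q.const_mul 3))).fun_div (q.fun_pow 3)
      (pow_ne_zero _ q0)).congr_deriv (by simp [l]; field_simp; ring)

noncomputable def H (A B c d : ℝ) (n : ℕ) (x : ℝ) : ℝ := A * l c n x + B * l d n x -
  (A * l c n (x + 1) + B * l d n (x + 1)) + (-1) ^ n * n.factorial / (x + 1) ^ (n + 1)

theorem dH {A B c d : ℝ} (hc : 1 / 4 < c) (hd : 1 / 4 < d) (n : ℕ) (hn : n < 4) {x : ℝ} (hx : -1 < x) :
    HasDerivAt (H A B c d n) (H A B c d (n + 1) x) x := by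
  have x0 : x + 1 ≠ 0 := by linarith
  refine (((((dl hc n hn x).const_mul A).fun_add ((dl hd n hn x).const_mul B)).fun_sub
    ((((dl hc n hn (x + 1)).comp_add_const x 1).const_mul A).fun_add
      (((dl hd n hn (x + 1)).comp_add_const x 1).const_mul B))).fun_add
    ((hasDerivAt_const x ((-1) ^ n * n.factorial : ℝ)).fun_div
      (((hasDerivAt_id' x).add_const 1).fun_pow (n + 1)) (pow_ne_zero _ x0))).congr_deriv ?_
  simp only [H, Nat.factorial_succ, Nat.add_sub_cancel]; push_cast; field_simp; ring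

theorem result : (∀ x, -1 < x → AnalyticAt ℝ G x) ∧
    ∃ (n : ℕ) (x : ℝ), -1 < x ∧ (-1) ^ n * iteratedDeriv n G x < 0 := by
  have s1 : (14.3 : ℝ) < √205 := Real.lt_sqrt_of_sq_lt (by norm_num)
  have s2 : √205 < (14.4 : ℝ) := (Real.sqrt_lt' (by norm_num)).2 (by norm_num)
  have a0 : 0.78 < a1 := by unfold a1; linarith
  have a2 : a1 < 0.8 := by unfold a1; linarith
  have hc : 1 < (3 * a1 + 1) / 3 := by linarith
  have hd : 0.3 < (15 * a1 - 1) / (45 * a1) := by rw [lt_div_iff₀ (by linarith)]; linarith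
  have hd' : (15 * a1 - 1) / (45 * a1) < 0.31 := by rw [div_lt_iff₀ (by linarith)]; linarith
  have hA : 0 < 1 / (90 * a1 ^ 2 + 2) := by positivity
  have hA' : 1 / (90 * a1 ^ 2 + 2) < 1 := by rw [div_lt_one (by positivity)]; nlinarith
  have hB : 0.48 < 45 * a1 ^ 2 / (90 * a1 ^ 2 + 2) := by rw [lt_div_iff₀ (by positivity)]; nlinarith
  have h1 : ∀ x, -1 < x → AnalyticAt ℝ G x := fun x hx => by
    have g := anG (show 0 < x + 1 by linarith)
    have p : AnalyticAt ℝ psi (x + 1) := g.deriv.div g (Gamma_pos_of_pos (by linarith)).ne'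
    have q : ∀ c : ℝ, 1 / 4 < c → AnalyticAt ℝ (fun x => log (x ^ 2 + x + c)) x := fun c hc =>
      AnalyticAt.log (by fun_prop) (by nlinarith [sq_nonneg (x + 1 / 2)])
    exact ((analyticAt_const.mul (q _ (by linarith))).add (analyticAt_const.mul (q _ (by linarith)))).sub
      (p.comp_of_eq (f := fun x => x + 1) (by fun_prop) rfl)
  refine ⟨h1, ?_⟩
  by_contra! h2
  have D : ∀ n x, -1 < x → HasDerivAt (iteratedDeriv n G) (iteratedDeriv (n + 1) G x) x := fun n x hx => by
    rw [iteratedDeriv_succ, iteratedDeriv_eq_iterate]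
    exact ((h1 x hx).iterated_deriv n).differentiableAt.hasDerivAt
  have key : ∀ n ≤ 4, ∀ x, -1 < x → iteratedDeriv n G x - iteratedDeriv n G (x + 1) =
      H (1 / (90 * a1 ^ 2 + 2)) (45 * a1 ^ 2 / (90 * a1 ^ 2 + 2)) ((3 * a1 + 1) / 3)
        ((15 * a1 - 1) / (45 * a1)) n x := by
    intro n
    induction n with
    | zero =>
      intro _ x hx
      simp only [iteratedDeriv_zero, G, L, H, l, psi_add (show 0 < x + 1 by linarith)]
      simp; ring
    | succ n ih =>
      intro hn x hx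
      refine ((D n x hx).fun_sub ((D n (x + 1) (by linarith)).comp_add_const x 1)).unique
        ((dH (by linarith) (by linarith) n (by omega) hx).congr_of_eventuallyEq ?_)
      filter_upwards [lt_mem_nhds hx] with y hy using ih (by omega) y hy
  have anti : AntitoneOn (iteratedDeriv 4 G) (Ioi (-1)) := by
    refine antitoneOn_of_deriv_nonpos (convex_Ioi _)
      (fun x hx => (D 4 x hx).continuousAt.continuousWithinAt)
      (fun x hx => (D 4 x (interior_subset hx)).differentiableAt.differentiableWithinAt) fun x hx => ?_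
    have := h2 5 x (interior_subset hx)
    rw [(D 4 x (interior_subset hx)).deriv]; norm_num at this ⊢; exact this
  have := anti (show (-1 / 2 : ℝ) ∈ Ioi (-1) by norm_num) (show (-1 / 2 + 1 : ℝ) ∈ Ioi (-1) by norm_num)
    (by norm_num)
  rw [← sub_nonneg, key 4 le_rfl _ (by norm_num)] at this
  generalize 1 / (90 * a1 ^ 2 + 2) = A at *
  generalize 45 * a1 ^ 2 / (90 * a1 ^ 2 + 2) = B at *
  generalize (3 * a1 + 1) / 3 = c at *
  generalize (15 * a1 - 1) / (45 * a1) = d at *
  have e1 : ∀ c : ℝ, 1 / 4 < c → l c 4 (-1 / 2) = -12 / (c - 1 / 4) ^ 2 := fun c hc => by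
    have : c - 1 / 4 ≠ 0 := by linarith
    simp only [l]
    rw [show (-1 / 2) ^ 2 + -1 / 2 + c = c - 1 / 4 by ring]
    generalize c - 1 / 4 = w at *
    field_simp; ring
  have e2 : ∀ c : ℝ, 1 / 4 < c → -30 ≤ l c 4 (-1 / 2 + 1) := fun c hc => by
    simp only [l]
    rw [show (-1 / 2 + 1) ^ 2 + (-1 / 2 + 1) + c = c + 3 / 4 by ring, le_div_iff₀ (by positivity)]
    have : 1 ≤ (c + 3 / 4) ^ 2 := by nlinarith
    nlinarith
  have e3 : -12 / (d - 1 / 4) ^ 2 ≤ -3300 := by
    rw [div_le_iff₀ (by nlinarith)]; nlinarith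
  have e4 : -12 / (c - 1 / 4) ^ 2 ≤ 0 := div_nonpos_of_nonpos_of_nonneg (by norm_num) (by positivity)
  have := e2 c (by linarith)
  have := e2 d (by linarith)
  simp only [H] at *
  rw [e1 c (by linarith), e1 d (by linarith)] at *
  norm_num [Nat.factorial] at *
  nlinarith

end Pool.Agent.Results.MP_d2a7e5_an.NotCM
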